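import Pool.Agent.Work.MP_41a35f_al.Exist

set_option autoImplicit false

/-!
# Nickel embeddings of polynomial size do not always exist

For every polynomial `p` there is a finitely generated torsion-free nilpotent group `G` such that
for every Mal'cev basis `a` of `G` (its length `n` being the Hirsch length of `G`) Nickel's
representation for `a` has dimension `N(a) > p(n)`.
-/

namespace Pool.Agent.Results.MP_41a35f_al.NickelNegative

open Pool.Agent.Nickel

theorem result :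
    ∀ p : Polynomial ℝ, ∃ (G : Type) (_ : Group G), IsTauGroup G ∧
      (∃ (n : ℕ) (a : Fin n → G), IsMalcevBasis a) ∧
      ∀ (n : ℕ) (a : Fin n → G), IsMalcevBasis a → p.eval (n : ℝ) < (nickelSize a : ℝ) := by
  intro p
  -- the parameters
  obtain ⟨S, hS⟩ : ∃ S : ℕ, (∑ i ∈ Finset.range (p.natDegree + 1), |p.coeff i|) ≤ (S : ℝ) :=
    exists_nat_ge _
  set d := p.natDegree with hd
  set M : ℕ := 4 * 4 ^ (d + 1 + 1) * 8 + 2 with hM
  set w : ℕ := S * M ^ d + 1 with hw
  set m : ℕ := totL w (8 * w) (d + 1) with hm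
  set c : ℕ := 2 * m + 1 with hc
  obtain ⟨n0, a0, h0⟩ := exists_malcev c
  refine ⟨GG c, inferInstance, h0.isTauGroup, ⟨n0, a0, h0⟩, ?_⟩
  intro n a ha
  have hw1 : 1 ≤ w := by omega
  have hrank : w ^ (d + 1) ≤ nickelSize a :=
    rank_bound (thin_GG c) ha (special_GG c) hw1 hc hm (eG_ne_one m)
  have hlen : n ≤ 2 * c := length_bound (thin_GG c) ha (rank2_GG c)
  have hmle : m ≤ 4 ^ (d + 1 + 1) * (8 * w) := totL_le w (d + 1) (8 * w)
  have hn : n ≤ M * w := by
    have h1 : M * w = 4 * (4 ^ (d + 1 + 1) * (8 * w)) + 2 * w := by rw [hM]; ring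
    rw [h1]
    omega
  have hMw : 1 ≤ M * w := Nat.one_le_iff_ne_zero.mpr (by
    rw [hM]; exact Nat.mul_ne_zero (by omega) (by omega))
  -- the estimate
  have hx : (n : ℝ) ≤ ((M * w : ℕ) : ℝ) := by exact_mod_cast hn
  have hx1 : (1 : ℝ) ≤ ((M * w : ℕ) : ℝ) := by exact_mod_cast hMw
  have hn0 : (0 : ℝ) ≤ (n : ℝ) := Nat.cast_nonneg n
  have h1 : p.eval (n : ℝ) ≤ (S : ℝ) * ((M * w : ℕ) : ℝ) ^ d := by
    rw [Polynomial.eval_eq_sum_range]
    calc ∑ i ∈ Finset.range (d + 1), p.coeff i * (n : ℝ) ^ i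
        ≤ ∑ i ∈ Finset.range (d + 1), |p.coeff i| * ((M * w : ℕ) : ℝ) ^ d := by
          apply Finset.sum_le_sum
          intro i hi
          have hid : i ≤ d := Nat.lt_succ_iff.mp (Finset.mem_range.mp hi)
          have e1 : p.coeff i * (n : ℝ) ^ i ≤ |p.coeff i| * (n : ℝ) ^ i :=
            mul_le_mul_of_nonneg_right (le_abs_self _) (pow_nonneg hn0 i)
          have e2 : (n : ℝ) ^ i ≤ ((M * w : ℕ) : ℝ) ^ d :=
            (pow_le_pow_left₀ hn0 hx i).trans (pow_le_pow_right₀ hx1 hid)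
          exact e1.trans (mul_le_mul_of_nonneg_left e2 (abs_nonneg _))
      _ = (∑ i ∈ Finset.range (d + 1), |p.coeff i|) * ((M * w : ℕ) : ℝ) ^ d := by
          rw [Finset.sum_mul]
      _ ≤ (S : ℝ) * ((M * w : ℕ) : ℝ) ^ d :=
          mul_le_mul_of_nonneg_right hS (by positivity)
  have h2 : S * (M * w) ^ d < w ^ (d + 1) := by
    have e1 : S * (M * w) ^ d = (S * M ^ d) * w ^ d := by rw [mul_pow]; ring
    have e2 : w ^ (d + 1) = w * w ^ d := by ring
    rw [e1, e2]
    apply Nat.mul_lt_mul_of_pos_right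
    · omega
    · exact Nat.pow_pos (by omega)
  have h3 : (S : ℝ) * ((M * w : ℕ) : ℝ) ^ d < (nickelSize a : ℝ) := by
    have : S * (M * w) ^ d < nickelSize a := lt_of_lt_of_le h2 hrank
    exact_mod_cast this
  exact lt_of_le_of_lt h1 h3

end Pool.Agent.Results.MP_41a35f_al.NickelNegative
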